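import Mathlib

set_option autoImplicit false
set_option linter.unusedSectionVars false

/-!
# MP_cd78fc_co: books in graphs with almost `n ^ 2 / 4` edges, the preparations
-/

universe u

namespace Pool.Agent.Lib.MP_cd78fc_co

open Finset

section

variable {V : Type u} [Fintype V] [DecidableEq V] (G : SimpleGraph V) [DecidableRel G.Adj]

/-- The indicator function of adjacency. -/
def ad (a b : V) : ℝ := if G.Adj a b then 1 else 0

/-- The indicator function of nonadjacency. -/
def na (a b : V) : ℝ := if G.Adj a b then 0 else 1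

theorem ad_nonneg (a b : V) : 0 ≤ ad G a b := by unfold ad; split_ifs <;> norm_num

theorem na_nonneg (a b : V) : 0 ≤ na G a b := by unfold na; split_ifs <;> norm_num

theorem ad_add_na (a b : V) : ad G a b + na G a b = 1 := by unfold ad na; split_ifs <;> norm_num

theorem ad_comm (a b : V) : ad G a b = ad G b a := by
  unfold ad; simp only [G.adj_comm]

theorem na_comm (a b : V) : na G a b = na G b a := by
  unfold na; simp only [G.adj_comm]

theorem sum_ad (S : Finset V) (a : V) : ∑ b ∈ S, ad G a b = ((S.filter (G.Adj a)).card : ℝ) := by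
  unfold ad
  rw [Finset.sum_boole]

theorem sum_na (S : Finset V) (a : V) :
    ∑ b ∈ S, na G a b = ((S.filter fun b => ¬ G.Adj a b).card : ℝ) := by
  unfold na
  rw [← Finset.sum_boole]
  refine Finset.sum_congr rfl fun b _ => ?_
  split_ifs <;> rfl

theorem sum_ad_univ (a : V) : ∑ b, ad G a b = (G.degree a : ℝ) := by
  rw [sum_ad, ← G.neighborFinset_eq_filter, G.card_neighborFinset_eq_degree]

theorem sum_ad_add (S : Finset V) (a : V) :
    ∑ b ∈ S, ad G a b + ∑ b ∈ S, na G a b = (S.card : ℝ) := by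
  rw [← Finset.sum_add_distrib, Finset.sum_congr rfl fun b _ => ad_add_na G a b]
  simp

theorem sum_degree : ∑ a, (G.degree a : ℝ) = 2 * (G.edgeFinset.card : ℝ) := by
  have := G.sum_degrees_eq_twice_card_edges
  exact_mod_cast this

/-- An edge with large degree sum. -/
theorem exists_edge (hE : 0 < G.edgeFinset.card) : ∃ u v, G.Adj u v ∧
    4 * (G.edgeFinset.card : ℝ) ≤ (Fintype.card V : ℝ) * ((G.degree u : ℝ) + G.degree v) := by
  by_contra hcon
  push Not at hcon
  have h1 : ∑ a, ∑ b, ad G a b * ((Fintype.card V : ℝ) * ((G.degree a : ℝ) + G.degree b)) =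
      2 * ((Fintype.card V : ℝ) * ∑ a, (G.degree a : ℝ) ^ 2) := by
    have e1 : ∑ a, ∑ b, ad G a b * (G.degree a : ℝ) = ∑ a, (G.degree a : ℝ) ^ 2 := by
      refine Finset.sum_congr rfl fun a _ => ?_
      rw [← Finset.sum_mul, sum_ad_univ, sq]
    have e2 : ∑ a, ∑ b, ad G a b * (G.degree b : ℝ) = ∑ a, (G.degree a : ℝ) ^ 2 := by
      rw [Finset.sum_comm]
      refine Finset.sum_congr rfl fun a _ => ?_
      rw [← Finset.sum_mul]
      have : ∑ b, ad G b a = (G.degree a : ℝ) := by
        rw [← sum_ad_univ]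
        exact Finset.sum_congr rfl fun b _ => ad_comm G b a
      rw [this, sq]
    have e3 : ∀ a b, ad G a b * ((Fintype.card V : ℝ) * ((G.degree a : ℝ) + G.degree b)) =
        (Fintype.card V : ℝ) * (ad G a b * (G.degree a : ℝ)) +
          (Fintype.card V : ℝ) * (ad G a b * (G.degree b : ℝ)) := by
      intro a b; ring
    simp only [e3, Finset.sum_add_distrib, ← Finset.mul_sum]
    rw [e1, e2]
    ring
  have h2 : ∑ a, ∑ b, ad G a b * (4 * (G.edgeFinset.card : ℝ)) =
      8 * (G.edgeFinset.card : ℝ) ^ 2 := by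
    simp only [← Finset.sum_mul, sum_ad_univ]
    rw [sum_degree]
    ring
  have h3 : (2 * (G.edgeFinset.card : ℝ)) ^ 2 ≤
      (Fintype.card V : ℝ) * ∑ a, (G.degree a : ℝ) ^ 2 := by
    rw [← sum_degree]
    have := sq_sum_le_card_mul_sum_sq (s := (Finset.univ : Finset V))
      (f := fun a => (G.degree a : ℝ))
    simpa using this
  -- the strict inequality
  obtain ⟨e, he⟩ := Finset.card_pos.mp hE
  have hex : ∃ u v, G.Adj u v := by
    induction e using Sym2.ind with
    | _ u v => exact ⟨u, v, by simpa using he⟩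
  obtain ⟨u, v, huv⟩ := hex
  have hle : ∀ a b, ad G a b * ((Fintype.card V : ℝ) * ((G.degree a : ℝ) + G.degree b)) ≤
      ad G a b * (4 * (G.edgeFinset.card : ℝ)) := by
    intro a b
    unfold ad
    split_ifs with h
    · rw [one_mul, one_mul]; exact (hcon a b h).le
    · simp
  have h4 : ∑ a, ∑ b, ad G a b * ((Fintype.card V : ℝ) * ((G.degree a : ℝ) + G.degree b)) <
      ∑ a, ∑ b, ad G a b * (4 * (G.edgeFinset.card : ℝ)) := by
    refine Finset.sum_lt_sum (fun a _ => Finset.sum_le_sum fun b _ => hle a b)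
      ⟨u, Finset.mem_univ _, ?_⟩
    refine Finset.sum_lt_sum (fun b _ => hle u b) ⟨v, Finset.mem_univ _, ?_⟩
    unfold ad
    rw [if_pos huv, one_mul, one_mul]
    exact hcon u v huv
  rw [h1, h2] at h4
  nlinarith

end

end Pool.Agent.Lib.MP_cd78fc_co
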