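import Pool.Agent.Lib.MP_cd78fc_co.Second

set_option autoImplicit false
set_option linter.unusedSectionVars false

/-!
# MP_cd78fc_co: books in graphs with almost `n ^ 2 / 4` edges, the covering argument
-/

universe u

namespace Pool.Agent.Lib.MP_cd78fc_co

open Finset

section

variable {V : Type u} [Fintype V] [DecidableEq V] (G : SimpleGraph V) [DecidableRel G.Adj]

theorem sum_ad_filter_le {β : ℕ} (hβ : ∀ u v, G.Adj u v → cd G u v ≤ β) (z : V) (X Y : Finset V)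
    (hX : ∀ x ∈ X, G.Adj z x) (hY : ∀ y ∈ Y, G.Adj z y) :
    ∑ x ∈ X, ∑ y ∈ Y, ad G x y ≤ (X.card : ℝ) * β := by
  rw [← nsmul_eq_mul]
  exact Finset.sum_le_card_nsmul _ _ _ fun x hx => sum_ad_le_of_adj G hβ z Y hY (hX x hx)

/-- The size of the sides of a rectangle. -/
theorem card_side_le {β : ℕ} (hβ : ∀ u v, G.Adj u v → cd G u v ≤ β) (z : V) (D : ℝ)
    (Y B : Finset V) (hYB : Y ⊆ B) (hY : ∀ y ∈ Y, G.Adj z y) {x : V} (hx : G.Adj z x)
    (hD : ∑ b ∈ B, na G x b ≤ D) : (Y.card : ℝ) ≤ β + D := by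
  have h1 := sum_ad_add G Y x
  have h2 := sum_ad_le_of_adj G hβ z Y hY hx
  have h3 : ∑ y ∈ Y, na G x y ≤ ∑ b ∈ B, na G x b :=
    Finset.sum_le_sum_of_subset_of_nonneg hYB fun b _ _ => na_nonneg G x b
  linarith

/-- Many missing paths of length three between `a` and `b`. -/
theorem paths_ge {β : ℕ} (hβ : ∀ u v, G.Adj u v → cd G u v ≤ β) (z : V) (m : ℝ)
    (A B X Y : Finset V) (hXA : X ⊆ A) (hYB : Y ⊆ B)
    (hX : ∀ x ∈ X, G.Adj z x) (hY : ∀ y ∈ Y, G.Adj z y) (hm0 : 0 ≤ m) (hm : 4 * (β : ℝ) ≤ m)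
    (hXm : m ≤ X.card) (hYm : m ≤ Y.card) {a b : V} (ha : G.Adj z a) (hb : G.Adj z b) :
    3 / 8 * m ^ 2 ≤ ∑ x ∈ A, ∑ y ∈ B, na G a y * (na G x y * na G x b) := by
  classical
  set X' := X.filter (fun x => ¬ G.Adj b x) with hX'
  set Y' := Y.filter (fun y => ¬ G.Adj a y) with hY'
  have hX'c : (X.card : ℝ) - β ≤ X'.card := by
    have h1 := sum_ad_add G X b
    have h2 := sum_ad_le_of_adj G hβ z X hX hb
    rw [sum_na] at h1
    linarith
  have hY'c : (Y.card : ℝ) - β ≤ Y'.card := by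
    have h1 := sum_ad_add G Y a
    have h2 := sum_ad_le_of_adj G hβ z Y hY ha
    rw [sum_na] at h1
    linarith
  have hrect := rectangle G hβ z X' Y' (fun x hx => hX x (Finset.mem_filter.1 hx).1)
    (fun y hy => hY y (Finset.mem_filter.1 hy).1)
  have hβ0 : (0 : ℝ) ≤ β := Nat.cast_nonneg _
  have h1 : 3 / 4 * m * (m / 2) ≤ (X'.card : ℝ) * ((Y'.card : ℝ) - β) :=
    mul_le_mul (by linarith) (by linarith) (by linarith) (Nat.cast_nonneg _)
  have hnn : ∀ x y, 0 ≤ na G a y * (na G x y * na G x b) := fun x y =>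
    mul_nonneg (na_nonneg G a y) (mul_nonneg (na_nonneg G x y) (na_nonneg G x b))
  have h2 : ∑ x ∈ X', ∑ y ∈ Y', na G x y ≤
      ∑ x ∈ A, ∑ y ∈ B, na G a y * (na G x y * na G x b) := by
    calc ∑ x ∈ X', ∑ y ∈ Y', na G x y
        = ∑ x ∈ X', ∑ y ∈ Y', na G a y * (na G x y * na G x b) := by
          refine Finset.sum_congr rfl fun x hx => Finset.sum_congr rfl fun y hy => ?_
          have e1 : na G a y = 1 := by
            unfold na; rw [if_neg (Finset.mem_filter.1 hy).2]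
          have e2 : na G x b = 1 := by
            rw [na_comm]; unfold na; rw [if_neg (Finset.mem_filter.1 hx).2]
          rw [e1, e2, one_mul, mul_one]
      _ ≤ ∑ x ∈ X', ∑ y ∈ B, na G a y * (na G x y * na G x b) :=
          Finset.sum_le_sum fun x _ => Finset.sum_le_sum_of_subset_of_nonneg
            ((Finset.filter_subset _ _).trans hYB) fun y _ _ => hnn x y
      _ ≤ _ := Finset.sum_le_sum_of_subset_of_nonneg ((Finset.filter_subset _ _).trans hXA)
            fun x _ _ => Finset.sum_nonneg fun y _ => hnn x y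
  nlinarith

/-- The number of all missing paths of length three. -/
theorem paths_le (A B : Finset V) (D : ℝ) (hD : 0 ≤ D) (hA : ∀ a ∈ A, ∑ b ∈ B, na G a b ≤ D)
    (hB : ∀ b ∈ B, ∑ a ∈ A, na G b a ≤ D) :
    ∑ a ∈ A, ∑ b ∈ B, ∑ x ∈ A, ∑ y ∈ B, na G a y * (na G x y * na G x b) ≤
      (A.card : ℝ) * D ^ 3 := by
  rw [← nsmul_eq_mul]
  refine Finset.sum_le_card_nsmul _ _ _ fun a ha => ?_
  have e1 : ∑ b ∈ B, ∑ x ∈ A, ∑ y ∈ B, na G a y * (na G x y * na G x b) =
      ∑ y ∈ B, na G a y * ∑ x ∈ A, na G x y * ∑ b ∈ B, na G x b := by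
    rw [Finset.sum_comm]
    have : ∀ x ∈ A, ∑ b ∈ B, ∑ y ∈ B, na G a y * (na G x y * na G x b) =
        ∑ y ∈ B, na G a y * (na G x y * ∑ b ∈ B, na G x b) := by
      intro x _
      rw [Finset.sum_comm]
      refine Finset.sum_congr rfl fun y _ => ?_
      rw [← Finset.mul_sum, ← Finset.mul_sum]
    rw [Finset.sum_congr rfl this, Finset.sum_comm]
    refine Finset.sum_congr rfl fun y _ => ?_
    rw [← Finset.mul_sum]
  rw [e1]
  calc ∑ y ∈ B, na G a y * ∑ x ∈ A, na G x y * ∑ b ∈ B, na G x b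
      ≤ ∑ y ∈ B, na G a y * (D * D) := by
        refine Finset.sum_le_sum fun y hy => ?_
        refine mul_le_mul_of_nonneg_left ?_ (na_nonneg G a y)
        calc ∑ x ∈ A, na G x y * ∑ b ∈ B, na G x b ≤ ∑ x ∈ A, na G x y * D :=
              Finset.sum_le_sum fun x hx =>
                mul_le_mul_of_nonneg_left (hA x hx) (na_nonneg G x y)
          _ = (∑ x ∈ A, na G y x) * D := by
              rw [← Finset.sum_mul]
              congr 1
              exact Finset.sum_congr rfl fun x _ => na_comm G x y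
          _ ≤ D * D := mul_le_mul_of_nonneg_right (hB y hy) hD
    _ = (∑ y ∈ B, na G a y) * (D * D) := by rw [Finset.sum_mul]
    _ ≤ D * (D * D) := mul_le_mul_of_nonneg_right (hA a ha) (mul_nonneg hD hD)
    _ = D ^ 3 := by ring

/-- The typical vertices. -/
theorem exists_typical (A B : Finset V) (n ε : ℝ) (hn : 0 < n) (hε0 : 0 < ε)
    (hAB : (A.card : ℝ) + B.card ≤ n) (hM : ∑ a ∈ A, ∑ b ∈ B, na G a b ≤ ε * n ^ 2)
    (hE : 6 / 25 * n ^ 2 ≤ ∑ a ∈ A, ∑ b ∈ B, ad G a b) : ∃ A' B' : Finset V, A' ⊆ A ∧ B' ⊆ B ∧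
      (∀ a ∈ A', ∑ b ∈ B, na G a b ≤ 32 * ε * n) ∧ (∀ b ∈ B', ∑ a ∈ A, na G b a ≤ 32 * ε * n) ∧
      n ^ 2 / 5 ≤ ∑ a ∈ A', ∑ b ∈ B', ad G a b := by
  classical
  set D := 32 * ε * n with hD
  have hDpos : 0 < D := by positivity
  set A' := A.filter (fun a => ∑ b ∈ B, na G a b ≤ D) with hA'
  set B' := B.filter (fun b => ∑ a ∈ A, na G b a ≤ D) with hB'
  have hgen : ∀ (S : Finset V) (T : Finset V), (∀ a ∈ S, D < ∑ b ∈ T, na G a b) →
      ∑ a ∈ S, ∑ b ∈ T, na G a b ≤ ε * n ^ 2 → (S.card : ℝ) ≤ n / 32 := by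
    intro S T h1 h2
    have h3 : (S.card : ℝ) * D ≤ ∑ a ∈ S, ∑ b ∈ T, na G a b := by
      rw [← nsmul_eq_mul]
      exact Finset.card_nsmul_le_sum _ _ _ fun a ha => (h1 a ha).le
    by_contra hcon
    push Not at hcon
    have h4 := mul_lt_mul_of_pos_right hcon hDpos
    have h5 : n / 32 * D = ε * n ^ 2 := by rw [hD]; ring
    linarith
  have hAc : ((A \ A').card : ℝ) ≤ n / 32 := by
    refine hgen _ B ?_ ?_
    · intro a ha
      rw [hA', Finset.mem_sdiff, Finset.mem_filter] at ha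
      push Not at ha
      exact ha.2 ha.1
    · exact (sum_na_mono G Finset.sdiff_subset (Finset.Subset.refl _)).trans hM
  have hBc : ((B \ B').card : ℝ) ≤ n / 32 := by
    refine hgen _ A ?_ ?_
    · intro a ha
      rw [hB', Finset.mem_sdiff, Finset.mem_filter] at ha
      push Not at ha
      exact ha.2 ha.1
    · rw [sum_sum_na_comm] at hM
      exact (sum_na_mono G Finset.sdiff_subset (Finset.Subset.refl _)).trans hM
  refine ⟨A', B', Finset.filter_subset _ _, Finset.filter_subset _ _,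
    fun a ha => (Finset.mem_filter.1 ha).2, fun a ha => (Finset.mem_filter.1 ha).2, ?_⟩
  have hAn : (0 : ℝ) ≤ A.card := Nat.cast_nonneg _
  have hBn : (0 : ℝ) ≤ B.card := Nat.cast_nonneg _
  have h1 : ∑ a ∈ A, ∑ b ∈ B, ad G a b =
      ∑ a ∈ A', ∑ b ∈ B, ad G a b + ∑ a ∈ A \ A', ∑ b ∈ B, ad G a b := by
    rw [add_comm, Finset.sum_sdiff (Finset.filter_subset _ _)]
  have h2 : ∀ a, ∑ b ∈ B, ad G a b = ∑ b ∈ B', ad G a b + ∑ b ∈ B \ B', ad G a b := by
    intro a
    rw [add_comm, Finset.sum_sdiff (Finset.filter_subset _ _)]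
  have h3 : ∑ a ∈ A \ A', ∑ b ∈ B, ad G a b ≤ n / 32 * B.card := by
    calc ∑ a ∈ A \ A', ∑ b ∈ B, ad G a b ≤ ((A \ A').card : ℝ) * B.card := by
          rw [← nsmul_eq_mul]
          exact Finset.sum_le_card_nsmul _ _ _ fun a _ => sum_ad_le_card G B a
      _ ≤ _ := mul_le_mul_of_nonneg_right hAc hBn
  have h4 : ∑ a ∈ A', ∑ b ∈ B, ad G a b ≤
      ∑ a ∈ A', ∑ b ∈ B', ad G a b + A.card * (n / 32) := by
    rw [Finset.sum_congr rfl fun a _ => h2 a, Finset.sum_add_distrib]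
    have h5 : ∑ a ∈ A', ∑ b ∈ B \ B', ad G a b ≤ (A'.card : ℝ) * (n / 32) := by
      rw [← nsmul_eq_mul]
      exact Finset.sum_le_card_nsmul _ _ _ fun a _ => (sum_ad_le_card G _ a).trans hBc
    have h6 : (A'.card : ℝ) ≤ A.card := by
      exact_mod_cast Finset.card_le_card (Finset.filter_subset _ _)
    have h7 : (A'.card : ℝ) * (n / 32) ≤ A.card * (n / 32) :=
      mul_le_mul_of_nonneg_right h6 (by positivity)
    linarith
  have h8 : n / 32 * (B.card : ℝ) + A.card * (n / 32) ≤ n / 32 * n := by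
    have : n / 32 * (B.card : ℝ) + A.card * (n / 32) = n / 32 * ((A.card : ℝ) + B.card) := by ring
    rw [this]
    exact mul_le_mul_of_nonneg_left hAB (by positivity)
  nlinarith

end

end Pool.Agent.Lib.MP_cd78fc_co
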