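import Pool.Agent.Lib.MP_cd78fc_co.Structure

set_option autoImplicit false
set_option linter.unusedSectionVars false

/-!
# MP_cd78fc_co: books in graphs with almost `n ^ 2 / 4` edges, the example
-/

universe u

namespace Pool.Agent.Lib.MP_cd78fc_co

open Finset

/-- The vertices of the example. -/
abbrev W (k s r : ℕ) : Type := (Fin k × Fin s) ⊕ ((Fin k × Fin s) ⊕ ((Fin k × Fin k) ⊕ Fin r))

/-- The adjacency of the example, before it is made symmetric. -/
def exRel (k s r : ℕ) : W k s r → W k s r → Prop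
  | Sum.inl _, Sum.inr (Sum.inl _) => True
  | Sum.inl a, Sum.inr (Sum.inr (Sum.inl z)) => a.1 = z.1
  | Sum.inr (Sum.inl b), Sum.inr (Sum.inr (Sum.inl z)) => b.1 = z.2
  | _, _ => False

/-- The example. -/
def exG (k s r : ℕ) : SimpleGraph (W k s r) where
  Adj u v := exRel k s r u v ∨ exRel k s r v u
  symm := ⟨fun _ _ h => h.symm⟩
  loopless := ⟨by
    rintro (a | a | a | a) h <;> simp [exRel] at h⟩

noncomputable instance exDec (k s r : ℕ) : DecidableRel (exG k s r).Adj := Classical.decRel _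

section

variable (k s r : ℕ)

theorem ad_aa (a b : Fin k × Fin s) : ad (exG k s r) (Sum.inl a) (Sum.inl b) = 0 := by
  unfold ad; rw [if_neg]; simp [exG, exRel]

theorem ad_ab (a b : Fin k × Fin s) :
    ad (exG k s r) (Sum.inl a) (Sum.inr (Sum.inl b)) = 1 := by
  unfold ad; rw [if_pos]; simp [exG, exRel]

theorem ad_az (a : Fin k × Fin s) (z : Fin k × Fin k) :
    ad (exG k s r) (Sum.inl a) (Sum.inr (Sum.inr (Sum.inl z))) = if a.1 = z.1 then 1 else 0 := by
  unfold ad; simp [exG, exRel]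

theorem ad_ar (a : Fin k × Fin s) (z : Fin r) :
    ad (exG k s r) (Sum.inl a) (Sum.inr (Sum.inr (Sum.inr z))) = 0 := by
  unfold ad; rw [if_neg]; simp [exG, exRel]

theorem ad_bb (a b : Fin k × Fin s) :
    ad (exG k s r) (Sum.inr (Sum.inl a)) (Sum.inr (Sum.inl b)) = 0 := by
  unfold ad; rw [if_neg]; simp [exG, exRel]

theorem ad_bz (a : Fin k × Fin s) (z : Fin k × Fin k) :
    ad (exG k s r) (Sum.inr (Sum.inl a)) (Sum.inr (Sum.inr (Sum.inl z))) =
      if a.1 = z.2 then 1 else 0 := by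
  unfold ad; simp [exG, exRel]

theorem ad_br (a : Fin k × Fin s) (z : Fin r) :
    ad (exG k s r) (Sum.inr (Sum.inl a)) (Sum.inr (Sum.inr (Sum.inr z))) = 0 := by
  unfold ad; rw [if_neg]; simp [exG, exRel]

theorem ad_zz (y z : Fin k × Fin k) :
    ad (exG k s r) (Sum.inr (Sum.inr (Sum.inl y))) (Sum.inr (Sum.inr (Sum.inl z))) = 0 := by
  unfold ad; rw [if_neg]; simp [exG, exRel]

theorem ad_zr (y : Fin k × Fin k) (z : Fin r) :
    ad (exG k s r) (Sum.inr (Sum.inr (Sum.inl y))) (Sum.inr (Sum.inr (Sum.inr z))) = 0 := by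
  unfold ad; rw [if_neg]; simp [exG, exRel]

theorem ad_rr (y z : Fin r) :
    ad (exG k s r) (Sum.inr (Sum.inr (Sum.inr y))) (Sum.inr (Sum.inr (Sum.inr z))) = 0 := by
  unfold ad; rw [if_neg]; simp [exG, exRel]

theorem ad_ba (a b : Fin k × Fin s) :
    ad (exG k s r) (Sum.inr (Sum.inl b)) (Sum.inl a) = 1 := by
  rw [ad_comm, ad_ab]

theorem ad_za (a : Fin k × Fin s) (z : Fin k × Fin k) :
    ad (exG k s r) (Sum.inr (Sum.inr (Sum.inl z))) (Sum.inl a) = if a.1 = z.1 then 1 else 0 := by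
  rw [ad_comm, ad_az]

theorem ad_zb (a : Fin k × Fin s) (z : Fin k × Fin k) :
    ad (exG k s r) (Sum.inr (Sum.inr (Sum.inl z))) (Sum.inr (Sum.inl a)) =
      if a.1 = z.2 then 1 else 0 := by
  rw [ad_comm, ad_bz]

theorem ad_ra (a : Fin k × Fin s) (z : Fin r) :
    ad (exG k s r) (Sum.inr (Sum.inr (Sum.inr z))) (Sum.inl a) = 0 := by
  rw [ad_comm, ad_ar]

theorem ad_rb (a : Fin k × Fin s) (z : Fin r) :
    ad (exG k s r) (Sum.inr (Sum.inr (Sum.inr z))) (Sum.inr (Sum.inl a)) = 0 := by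
  rw [ad_comm, ad_br]

theorem ad_rz (y : Fin k × Fin k) (z : Fin r) :
    ad (exG k s r) (Sum.inr (Sum.inr (Sum.inr z))) (Sum.inr (Sum.inr (Sum.inl y))) = 0 := by
  rw [ad_comm, ad_zr]

theorem sum_fst_left (i : Fin k) :
    ∑ a : Fin k × Fin s, (if a.1 = i then (1 : ℝ) else 0) = s := by
  rw [Fintype.sum_prod_type_right]
  simp

theorem sum_fst_right (i : Fin k) :
    ∑ z : Fin k × Fin k, (if i = z.1 then (1 : ℝ) else 0) = k := by
  rw [Fintype.sum_prod_type_right]
  simp

theorem sum_snd_right (i : Fin k) :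
    ∑ z : Fin k × Fin k, (if i = z.2 then (1 : ℝ) else 0) = k := by
  rw [Fintype.sum_prod_type]
  simp

theorem sum_both (i j : Fin k) :
    ∑ z : Fin k × Fin k, ((if i = z.1 then (1 : ℝ) else 0) * (if j = z.2 then (1 : ℝ) else 0)) =
      1 := by
  rw [Fintype.sum_prod_type]
  simp

theorem sum_both' (i j : Fin k) :
    ∑ z : Fin k × Fin k, ((if j = z.2 then (1 : ℝ) else 0) * (if i = z.1 then (1 : ℝ) else 0)) =
      1 := by
  exact (Finset.sum_congr rfl fun z _ => mul_comm _ _).trans (sum_both k i j)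

/-- The number of edges of the example. -/
theorem ex_edges : ((exG k s r).edgeFinset.card : ℝ) = ((k : ℝ) * s) ^ 2 + 2 * k ^ 2 * s := by
  have h1 := sum_degree (exG k s r)
  simp only [← sum_ad_univ, Fintype.sum_sum_type, ad_aa, ad_ab, ad_az, ad_ar, ad_ba, ad_bb, ad_bz,
    ad_br, ad_za, ad_zb, ad_zz, ad_zr, ad_ra, ad_rb, ad_rz, ad_rr, sum_fst_left, sum_fst_right,
    sum_snd_right, Finset.sum_const_zero, Finset.sum_const, Finset.card_univ, Fintype.card_prod,
    Fintype.card_fin, nsmul_eq_mul, Nat.cast_mul] at h1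
  linarith

/-- The number of triangles at an edge of the example. -/
theorem ex_codegree (hs : 1 ≤ s) (u v : W k s r) (huv : (exG k s r).Adj u v) :
    (cd (exG k s r) u v : ℝ) ≤ s := by
  have h0 : (cd (exG k s r) u v : ℝ) = ∑ w, ad (exG k s r) u w * ad (exG k s r) v w := by
    rw [sum_ad_mul]; rfl
  rw [h0]
  have hs' : (1 : ℝ) ≤ s := by exact_mod_cast hs
  rcases u with a | a | a | a <;> rcases v with b | b | b | b
  · simp [exG, exRel] at huv
  · simp only [Fintype.sum_sum_type, ad_aa, ad_ab, ad_az, ad_ar, ad_ba, ad_bb, ad_bz, ad_br,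
      zero_mul, mul_zero, Finset.sum_const_zero, sum_both]
    linarith
  · simp only [Fintype.sum_sum_type, ad_aa, ad_ab, ad_az, ad_ar, ad_za, ad_zb, ad_zz, ad_zr,
      zero_mul, mul_zero, one_mul, Finset.sum_const_zero, sum_fst_left]
    linarith
  · simp [exG, exRel] at huv
  · simp only [Fintype.sum_sum_type, ad_aa, ad_ab, ad_az, ad_ar, ad_ba, ad_bb, ad_bz, ad_br,
      zero_mul, mul_zero, Finset.sum_const_zero, sum_both']
    linarith
  · simp [exG, exRel] at huv
  · simp only [Fintype.sum_sum_type, ad_ba, ad_bb, ad_bz, ad_br, ad_za, ad_zb, ad_zz, ad_zr,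
      zero_mul, mul_zero, one_mul, Finset.sum_const_zero, sum_fst_left]
    linarith
  · simp [exG, exRel] at huv
  · simp only [Fintype.sum_sum_type, ad_aa, ad_ab, ad_az, ad_ar, ad_za, ad_zb, ad_zz, ad_zr,
      zero_mul, mul_zero, mul_one, Finset.sum_const_zero, sum_fst_left]
    linarith
  · simp only [Fintype.sum_sum_type, ad_ba, ad_bb, ad_bz, ad_br, ad_za, ad_zb, ad_zz, ad_zr,
      zero_mul, mul_zero, mul_one, Finset.sum_const_zero, sum_fst_left]
    linarith
  all_goals simp [exG, exRel] at huv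

/-- Every edge of the example lies in a triangle. -/
theorem ex_triangle (hs : 1 ≤ s) (u v : W k s r) (huv : (exG k s r).Adj u v) :
    ∃ w, (exG k s r).Adj u w ∧ (exG k s r).Adj v w := by
  rcases u with a | a | a | a <;> rcases v with b | b | b | b
  · simp [exG, exRel] at huv
  · exact ⟨Sum.inr (Sum.inr (Sum.inl (a.1, b.1))), by simp [exG, exRel]⟩
  · simp only [exG, exRel, or_false] at huv
    exact ⟨Sum.inr (Sum.inl (b.2, ⟨0, hs⟩)), by simp [exG, exRel]⟩
  · simp [exG, exRel] at huv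
  · exact ⟨Sum.inr (Sum.inr (Sum.inl (b.1, a.1))), by simp [exG, exRel]⟩
  · simp [exG, exRel] at huv
  · simp only [exG, exRel, or_false] at huv
    exact ⟨Sum.inl (b.1, ⟨0, hs⟩), by simp [exG, exRel]⟩
  · simp [exG, exRel] at huv
  · simp only [exG, exRel, false_or] at huv
    exact ⟨Sum.inr (Sum.inl (a.2, ⟨0, hs⟩)), by simp [exG, exRel]⟩
  · simp only [exG, exRel, false_or] at huv
    exact ⟨Sum.inl (a.1, ⟨0, hs⟩), by simp [exG, exRel]⟩
  all_goals simp [exG, exRel] at huv

end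

end Pool.Agent.Lib.MP_cd78fc_co
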