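import Pool.Agent.Lib.MP_cd78fc_co.Main
import Pool.Agent.Lib.MP_cd78fc_co.Example

set_option autoImplicit false
set_option linter.unusedSectionVars false

/-!
# MP_cd78fc_co: books in graphs with almost `n ^ 2 / 4` edges, the final statements
-/

universe u

namespace Pool.Agent.Lib.MP_cd78fc_co

open Finset

/-- The lower bound. -/
theorem lower_bound (n : ℕ) (t : ℝ) (G : SimpleGraph (Fin n)) [DecidableRel G.Adj] (hn : 1 ≤ n)
    (hnt : (n : ℝ) ≤ t) (ht : t < (n : ℝ) ^ 2 / 4)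
    (he : (n : ℝ) ^ 2 / 4 - t ≤ (G.edgeFinset.card : ℝ))
    (htri : ∀ u v : Fin n, G.Adj u v → ∃ w : Fin n, G.Adj u w ∧ G.Adj v w) :
    ∃ u v : Fin n, G.Adj u v ∧
      1 / 10 ^ 10 * Real.sqrt (min ((n : ℝ) ^ 3 / t) (((n : ℝ) ^ 2 / t) ^ 5)) ≤
        ((Finset.univ.filter (fun w : Fin n => G.Adj u w ∧ G.Adj v w)).card : ℝ) := by
  classical
  have hn0 : (0 : ℝ) < n := by exact_mod_cast hn
  have ht0 : 0 < t := by linarith
  have hepos : 0 < (G.edgeFinset.card : ℝ) := by linarith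
  have hcardV : (Fintype.card (Fin n) : ℝ) = n := by simp
  obtain ⟨u0, v0, huv0, -⟩ := exists_edge G (by exact_mod_cast hepos)
  -- an edge with the largest codegree
  obtain ⟨q, hq, hmax⟩ := Finset.exists_max_image
    ((univ : Finset (Fin n × Fin n)).filter fun q => G.Adj q.1 q.2) (fun q => cd G q.1 q.2)
    ⟨(u0, v0), by simpa using huv0⟩
  have hqadj : G.Adj q.1 q.2 := (Finset.mem_filter.1 hq).2
  refine ⟨q.1, q.2, hqadj, ?_⟩
  change _ ≤ (cd G q.1 q.2 : ℝ)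
  set β := cd G q.1 q.2 with hβdef
  have hβ : ∀ u v, G.Adj u v → cd G u v ≤ β := fun u v huv => hmax (u, v) (by simpa using huv)
  have hβ1 : 1 ≤ β := by
    obtain ⟨w, hw1, hw2⟩ := htri q.1 q.2 hqadj
    rw [hβdef]
    unfold cd
    exact Finset.card_pos.2 ⟨w, by simp [hw1, hw2]⟩
  have hβR : (1 : ℝ) ≤ β := by exact_mod_cast hβ1
  -- it is enough to bound the square root
  have hfin : ∀ x : ℝ, 0 ≤ x → (n : ℝ) ^ 3 / t ≤ x ^ 2 ∨ ((n : ℝ) ^ 2 / t) ^ 5 ≤ x ^ 2 →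
      Real.sqrt (min ((n : ℝ) ^ 3 / t) (((n : ℝ) ^ 2 / t) ^ 5)) ≤ x := by
    intro x hx h
    rw [Real.sqrt_le_left hx]
    rcases h with h | h
    · exact (min_le_left _ _).trans h
    · exact (min_le_right _ _).trans h
  set ε := t / (n : ℝ) ^ 2 with hε
  have hε0 : 0 < ε := by positivity
  have hεt : ε * (n : ℝ) ^ 2 = t := by rw [hε]; field_simp
  by_cases hεs : ε ≤ 1 / 10 ^ 4
  · rcases trichotomy G hβ ε hε0 hεs (by rw [hcardV]; exact hn0) hβ1
      (by rw [hcardV, hεt]; exact he) htri with h | h | h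
    · rw [hcardV] at h
      have h1 : Real.sqrt (min ((n : ℝ) ^ 3 / t) (((n : ℝ) ^ 2 / t) ^ 5)) ≤ n := by
        refine hfin n hn0.le (Or.inl ?_)
        rw [div_le_iff₀ ht0]
        calc (n : ℝ) ^ 3 = (n : ℝ) ^ 2 * n := by ring
          _ ≤ _ := mul_le_mul_of_nonneg_left hnt (by positivity)
      linarith
    · rw [hcardV] at h
      have h1 : Real.sqrt (min ((n : ℝ) ^ 3 / t) (((n : ℝ) ^ 2 / t) ^ 5)) ≤ 32 * β := by
        refine hfin (32 * β) (by positivity) (Or.inl ?_)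
        rw [div_le_iff₀ ht0, ← hεt]
        have h2 : (n : ℝ) * (n : ℝ) ^ 2 ≤ 1024 * ε * (β : ℝ) ^ 2 * (n : ℝ) ^ 2 :=
          mul_le_mul_of_nonneg_right h (by positivity)
        nlinarith
      linarith
    · have h1 : Real.sqrt (min ((n : ℝ) ^ 3 / t) (((n : ℝ) ^ 2 / t) ^ 5)) ≤ 2 ^ 18 * β := by
        refine hfin (2 ^ 18 * β) (by positivity) (Or.inr ?_)
        have h2 : (n : ℝ) ^ 2 / t = 1 / ε := by rw [hε, one_div_div]
        rw [h2, div_pow, one_pow, div_le_iff₀ (by positivity)]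
        nlinarith
      linarith
  · push Not at hεs
    have h1 : Real.sqrt (min ((n : ℝ) ^ 3 / t) (((n : ℝ) ^ 2 / t) ^ 5)) ≤ 10 ^ 10 := by
      refine hfin (10 ^ 10) (by positivity) (Or.inr ?_)
      have h2 : (n : ℝ) ^ 2 / t = 1 / ε := by rw [hε, one_div_div]
      have h3 : 1 / ε ≤ 10 ^ 4 := by
        rw [div_le_iff₀ hε0]
        linarith
      rw [h2]
      calc (1 / ε) ^ 5 ≤ (10 ^ 4) ^ 5 := pow_le_pow_left₀ (by positivity) h3 5
        _ = (10 ^ 10) ^ 2 := by norm_num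
    linarith

/-- The example, on the vertices `Fin n`. -/
theorem upper_bound (n : ℕ) (t : ℝ) (hn : 1 ≤ n) (hnt : (n : ℝ) ≤ t) (ht : t ≤ (n : ℝ) ^ 2 / 5) :
    ∃ (G : SimpleGraph (Fin n)) (_ : DecidableRel G.Adj),
      (n : ℝ) ^ 2 / 4 - t ≤ (G.edgeFinset.card : ℝ) ∧
      (∀ u v : Fin n, G.Adj u v → ∃ w : Fin n, G.Adj u w ∧ G.Adj v w) ∧
      ∀ u v : Fin n, G.Adj u v →
        ((Finset.univ.filter (fun w : Fin n => G.Adj u w ∧ G.Adj v w)).card : ℝ) ≤
          Real.sqrt ((n : ℝ) ^ 3 / t) := by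
  classical
  have hn0 : (0 : ℝ) < n := by exact_mod_cast hn
  have ht0 : 0 < t := by linarith
  set x := Real.sqrt (t / n) with hx
  have hx1 : 1 ≤ x := by
    rw [hx, Real.one_le_sqrt, le_div_iff₀ hn0, one_mul]
    exact hnt
  have hxx : x ^ 2 = t / n := Real.sq_sqrt (by positivity)
  set k := ⌊x⌋₊ with hk
  have hk1 : 1 ≤ k := Nat.le_floor (by exact_mod_cast hx1)
  have hkR : (1 : ℝ) ≤ k := by exact_mod_cast hk1
  have hkx : (k : ℝ) ≤ x := Nat.floor_le (by linarith)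
  have hxk : x < k + 1 := Nat.lt_floor_add_one x
  have hk2 : (k : ℝ) ^ 2 ≤ t / n := by rw [← hxx]; exact pow_le_pow_left₀ (by linarith) hkx 2
  have hk3 : t / n ≤ 4 * (k : ℝ) ^ 2 := by
    rw [← hxx]
    have : x ≤ 2 * k := by linarith
    calc x ^ 2 ≤ (2 * k) ^ 2 := pow_le_pow_left₀ (by linarith) this 2
      _ = 4 * (k : ℝ) ^ 2 := by ring
  have hkt : (n : ℝ) * (k : ℝ) ^ 2 ≤ t := by
    rw [le_div_iff₀ hn0] at hk2
    linarith
  have hkt2 : t ≤ 4 * (k : ℝ) ^ 2 * n := by rwa [div_le_iff₀ hn0] at hk3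
  have h5k : 5 * (k : ℝ) ^ 2 ≤ n := by
    have h1 : (n : ℝ) * (5 * (k : ℝ) ^ 2) ≤ n * n := by nlinarith
    exact le_of_mul_le_mul_left h1 hn0
  have h5kN : 5 * k ^ 2 ≤ n := by exact_mod_cast h5k
  have hkk : k ≤ k ^ 2 := by nlinarith
  set s := (n - k ^ 2) / (2 * k) with hs
  have hs1 : 1 ≤ s := by
    rw [hs, Nat.one_le_div_iff (by omega)]
    omega
  have hs2 : 2 * k * s ≤ n - k ^ 2 := Nat.mul_div_le _ _
  have hs3 : n - k ^ 2 < 2 * k * (s + 1) := by
    rw [hs]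
    exact Nat.lt_mul_div_succ _ (by omega)
  set r := n - k ^ 2 - 2 * k * s with hr
  have hcard : Fintype.card (W k s r) = n := by
    simp only [Fintype.card_sum, Fintype.card_prod, Fintype.card_fin]
    have e1 : k * s + (k * s + (k * k + r)) = 2 * k * s + k ^ 2 + r := by ring
    rw [e1]
    omega
  set G := (exG k s r).overFin hcard with hG
  have iso : exG k s r ≃g G := (exG k s r).overFinIso hcard
  have hadj : ∀ u v, G.Adj u v → (exG k s r).Adj (iso.symm u) (iso.symm v) := fun u v h =>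
    iso.symm.map_adj_iff.2 h
  let inst : DecidableRel G.Adj := Classical.decRel _
  refine ⟨G, inst, ?_, ?_, ?_⟩
  · have h1 := iso.card_edgeFinset_eq
    have h2 := ex_edges k s r
    have h3 : ((exG k s r).edgeFinset.card : ℝ) = (G.edgeFinset.card : ℝ) := by
      exact_mod_cast h1
    have h4 : (n : ℝ) ^ 2 / 4 - t ≤ ((exG k s r).edgeFinset.card : ℝ) := by
      rw [h2]
      have h5 : (n : ℝ) - (k : ℝ) ^ 2 - 2 * k + 1 ≤ 2 * k * s := by
        have h6 : n + 1 ≤ 2 * k * s + 2 * k + k ^ 2 := by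
          have h7 : 2 * k * (s + 1) = 2 * k * s + 2 * k := by ring
          omega
        have h8 : (n : ℝ) + 1 ≤ 2 * k * s + 2 * k + k ^ 2 := by exact_mod_cast h6
        linarith
      have h6 : 0 ≤ (n : ℝ) - (k : ℝ) ^ 2 - 2 * k + 1 := by nlinarith
      have h7 : ((n : ℝ) - (k : ℝ) ^ 2 - 2 * k + 1) ^ 2 ≤ (2 * k * s) ^ 2 :=
        pow_le_pow_left₀ h6 h5 2
      have h8 : 4 * (k : ℝ) * ((n : ℝ) - (k : ℝ) ^ 2 - 2 * k + 1) ≤ 4 * k * (2 * k * s) :=
        mul_le_mul_of_nonneg_left h5 (by positivity)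
      have h9 : 0 ≤ (2 * (n : ℝ) - 6) * (k : ℝ) ^ 2 :=
        mul_nonneg (by nlinarith) (by positivity)
      nlinarith
    rw [h3] at h4
    exact h4
  · intro u v huv
    obtain ⟨w, hw1, hw2⟩ := ex_triangle k s r hs1 _ _ (hadj u v huv)
    refine ⟨iso w, ?_, ?_⟩
    · have := iso.map_adj_iff.2 hw1
      simpa using this
    · have := iso.map_adj_iff.2 hw2
      simpa using this
  · intro u v huv
    have h1 := ex_codegree k s r hs1 _ _ (hadj u v huv)
    have h2 : ((Finset.univ.filter (fun w : Fin n => G.Adj u w ∧ G.Adj v w)).card : ℝ) ≤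
        (cd (exG k s r) (iso.symm u) (iso.symm v) : ℝ) := by
      unfold cd
      have : (Finset.univ.filter (fun w : Fin n => G.Adj u w ∧ G.Adj v w)).card ≤
          (Finset.univ.filter fun w => (exG k s r).Adj (iso.symm u) w ∧
            (exG k s r).Adj (iso.symm v) w).card := by
        refine Finset.card_le_card_of_injOn iso.symm ?_ (iso.symm.injective.injOn)
        intro w hw
        have hw' := (Finset.mem_filter.1 (Finset.mem_coe.1 hw)).2
        refine Finset.mem_coe.2 (Finset.mem_filter.2 ⟨Finset.mem_univ _, ?_, ?_⟩)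
        · exact hadj _ _ hw'.1
        · exact hadj _ _ hw'.2
      exact_mod_cast this
    refine h2.trans (h1.trans ?_)
    refine Real.le_sqrt_of_sq_le ?_
    rw [le_div_iff₀ ht0]
    have h3 : 2 * (k : ℝ) * s ≤ n := by
      have h4 : 2 * k * s ≤ n := hs2.trans (Nat.sub_le _ _)
      exact_mod_cast h4
    have h4 : (2 * (k : ℝ) * s) ^ 2 ≤ (n : ℝ) ^ 2 := pow_le_pow_left₀ (by positivity) h3 2
    have h5 : (s : ℝ) ^ 2 * t ≤ (s : ℝ) ^ 2 * (4 * (k : ℝ) ^ 2 * n) :=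
      mul_le_mul_of_nonneg_left hkt2 (by positivity)
    have h6 : (2 * (k : ℝ) * s) ^ 2 * n ≤ (n : ℝ) ^ 2 * n :=
      mul_le_mul_of_nonneg_right h4 hn0.le
    nlinarith

/-- The logarithmic lower bound. -/
theorem log_bound (K : ℝ) (hK : 0 < K) : ∃ C : ℝ, 0 < C ∧ ∃ N : ℕ, ∀ n : ℕ, N ≤ n →
    ∀ (G : SimpleGraph (Fin n)) [DecidableRel G.Adj],
      (n : ℝ) ^ 2 / 4 - K * (n : ℝ) ^ 2 / Real.log n ^ ((2 : ℝ) / 5) ≤
        (G.edgeFinset.card : ℝ) →
      (∀ u v : Fin n, G.Adj u v → ∃ w : Fin n, G.Adj u w ∧ G.Adj v w) →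
      ∃ u v : Fin n, G.Adj u v ∧ C * Real.log n ≤
        ((Finset.univ.filter (fun w : Fin n => G.Adj u w ∧ G.Adj v w)).card : ℝ) := by
  have hlog : Filter.Tendsto (fun n : ℕ => Real.log n) Filter.atTop Filter.atTop :=
    Real.tendsto_log_atTop.comp tendsto_natCast_atTop_atTop
  have h1 : ∀ᶠ n : ℕ in Filter.atTop, 1 ≤ Real.log n := hlog.eventually_ge_atTop 1
  have h2 : ∀ᶠ n : ℕ in Filter.atTop, 4 * K < Real.log n ^ ((2 : ℝ) / 5) :=
    ((tendsto_rpow_atTop (by norm_num)).comp hlog).eventually_gt_atTop (4 * K)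
  have h3 : ∀ᶠ n : ℕ in Filter.atTop, ‖Real.log n‖ ≤ K * ‖(n : ℝ)‖ :=
    tendsto_natCast_atTop_atTop.eventually (Real.isLittleO_log_id_atTop.bound hK)
  obtain ⟨N, hN⟩ := Filter.eventually_atTop.1 (h1.and (h2.and h3))
  set m := min (1 / (4 * K)) (1 / K ^ 5) with hm
  have hm0 : 0 < m := lt_min (by positivity) (by positivity)
  refine ⟨1 / 10 ^ 10 * Real.sqrt m, by positivity, max N 1, ?_⟩
  intro n hn G _ he htri
  obtain ⟨hl1, hl2, hl3⟩ := hN n ((le_max_left _ _).trans hn)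
  have hn1 : 1 ≤ n := (le_max_right _ _).trans hn
  have hn0 : (0 : ℝ) < n := by exact_mod_cast hn1
  set l := Real.log n with hl
  have hl0 : 0 < l := by linarith
  rw [Real.norm_of_nonneg hl0.le, Real.norm_of_nonneg hn0.le] at hl3
  set x := l ^ ((2 : ℝ) / 5) with hx
  have hx0 : 0 < x := Real.rpow_pos_of_pos hl0 _
  have hxl : x ≤ l := by
    calc x ≤ l ^ (1 : ℝ) := Real.rpow_le_rpow_of_exponent_le hl1 (by norm_num)
      _ = l := Real.rpow_one l
  have hx1 : 1 ≤ x := Real.one_le_rpow hl1 (by norm_num)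
  have hx5 : x ^ 5 = l ^ 2 := by
    rw [hx, ← Real.rpow_natCast, ← Real.rpow_mul hl0.le]
    norm_num
  have hlow := lower_bound n (K * (n : ℝ) ^ 2 / x) G hn1 ?_ ?_ he htri
  · obtain ⟨u, v, huv, h⟩ := hlow
    refine ⟨u, v, huv, le_trans ?_ h⟩
    rw [mul_assoc]
    refine mul_le_mul_of_nonneg_left ?_ (by positivity)
    refine Real.le_sqrt_of_sq_le ?_
    rw [mul_pow, Real.sq_sqrt hm0.le]
    refine le_min ?_ ?_
    · have h4 : l ^ 2 ≤ 4 * n := by
        have h5 := Real.log_le_rpow_div hn0.le (by norm_num : (0 : ℝ) < 1 / 2)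
        rw [← hl, ← Real.sqrt_eq_rpow] at h5
        have h6 : l ≤ 2 * Real.sqrt n := by linarith
        calc l ^ 2 ≤ (2 * Real.sqrt n) ^ 2 := pow_le_pow_left₀ hl0.le h6 2
          _ = 4 * n := by rw [mul_pow, Real.sq_sqrt hn0.le]; norm_num
      have h5 : m * l ^ 2 ≤ 1 / (4 * K) * (4 * n) :=
        mul_le_mul (min_le_left _ _) h4 (by positivity) (by positivity)
      have h6 : 1 / (4 * K) * (4 * (n : ℝ)) = n / K := by field_simp
      have h7 : (n : ℝ) ^ 3 / (K * (n : ℝ) ^ 2 / x) = n / K * x := by field_simp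
      rw [h7]
      have h8 : (n : ℝ) / K ≤ n / K * x := le_mul_of_one_le_right (by positivity) hx1
      linarith
    · have h7 : ((n : ℝ) ^ 2 / (K * (n : ℝ) ^ 2 / x)) = x / K := by field_simp
      rw [h7, div_pow, hx5]
      calc m * l ^ 2 ≤ 1 / K ^ 5 * l ^ 2 :=
            mul_le_mul_of_nonneg_right (min_le_right _ _) (by positivity)
        _ = l ^ 2 / K ^ 5 := by ring
  · rw [le_div_iff₀ hx0]
    have : x ≤ K * n := hxl.trans hl3
    nlinarith
  · rw [div_lt_iff₀ hx0]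
    have : 0 < (n : ℝ) ^ 2 := by positivity
    nlinarith

end Pool.Agent.Lib.MP_cd78fc_co
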