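import Pool.Agent.Lib.MP_cd78fc_co.Cover

set_option autoImplicit false
set_option linter.unusedSectionVars false

/-!
# MP_cd78fc_co: books in graphs with almost `n ^ 2 / 4` edges, the lower bound
-/

universe u

namespace Pool.Agent.Lib.MP_cd78fc_co

open Finset

section

variable {V : Type u} [Fintype V] [DecidableEq V] (G : SimpleGraph V) [DecidableRel G.Adj]

/-- The covering argument. -/
theorem cover {β : ℕ} (hβ : ∀ u v, G.Adj u v → cd G u v ≤ β) (hβ1 : 1 ≤ β) (ε n : ℝ)
    (hn : 0 < n) (hε0 : 0 < ε) (A B L A' B' : Finset V) (hA'A : A' ⊆ A) (hB'B : B' ⊆ B)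
    (hAn : (A.card : ℝ) ≤ n) (hLc : (L.card : ℝ) ≤ 16 * ε * n)
    (hcov : ∀ a ∈ A, ∀ b ∈ B, G.Adj a b → ∃ z ∈ L, G.Adj z a ∧ G.Adj z b)
    (hA : ∀ a ∈ A', ∑ b ∈ B, na G a b ≤ 32 * ε * n)
    (hB : ∀ b ∈ B', ∑ a ∈ A, na G b a ≤ 32 * ε * n)
    (hE : n ^ 2 / 5 ≤ ∑ a ∈ A', ∑ b ∈ B', ad G a b) :
    n ≤ 1024 * ε * (β : ℝ) ^ 2 ∨ 3 ≤ 2 ^ 37 * ε ^ 5 * (β : ℝ) ^ 2 := by
  classical
  set D := 32 * ε * n with hD
  have hDpos : 0 < D := by positivity
  have hβ0 : (1 : ℝ) ≤ β := by exact_mod_cast hβ1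
  have hβp : (0 : ℝ) < β := by linarith
  have hLn : (0 : ℝ) ≤ L.card := Nat.cast_nonneg _
  set X : V → Finset V := fun z => A'.filter (G.Adj z) with hX
  set Y : V → Finset V := fun z => B'.filter (G.Adj z) with hY
  have hXm : ∀ z, ∀ x ∈ X z, G.Adj z x := fun z x hx => (Finset.mem_filter.1 hx).2
  have hYm : ∀ z, ∀ x ∈ Y z, G.Adj z x := fun z x hx => (Finset.mem_filter.1 hx).2
  have hXA : ∀ z, X z ⊆ A' := fun z => Finset.filter_subset _ _
  have hYB : ∀ z, Y z ⊆ B' := fun z => Finset.filter_subset _ _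
  set C : V → ℝ := fun z => ∑ x ∈ X z, ∑ y ∈ Y z, ad G x y with hC
  have hC1 : ∀ z, C z ≤ ((X z).card : ℝ) * β := fun z =>
    sum_ad_filter_le G hβ z (X z) (Y z) (hXm z) (hYm z)
  have hC2 : ∀ z, C z ≤ ((Y z).card : ℝ) * β := by
    intro z
    have h1 := sum_ad_filter_le G hβ z (Y z) (X z) (hYm z) (hXm z)
    rw [hC]
    dsimp only
    rw [sum_sum_ad_comm]
    exact h1
  have hCeq : ∀ z, C z = ∑ a ∈ A', ∑ b ∈ B', ad G z a * (ad G z b * ad G a b) := by
    intro z
    rw [hC, hX, hY]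
    dsimp only
    rw [Finset.sum_filter]
    refine Finset.sum_congr rfl fun a _ => ?_
    by_cases ha : G.Adj z a
    · rw [if_pos ha, Finset.sum_filter]
      refine Finset.sum_congr rfl fun b _ => ?_
      have e1 : ad G z a = 1 := by unfold ad; rw [if_pos ha]
      rw [e1, one_mul]
      by_cases hb : G.Adj z b
      · have e2 : ad G z b = 1 := by unfold ad; rw [if_pos hb]
        rw [if_pos hb, e2, one_mul]
      · have e2 : ad G z b = 0 := by unfold ad; rw [if_neg hb]
        rw [if_neg hb, e2, zero_mul]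
    · have e1 : ad G z a = 0 := by unfold ad; rw [if_neg ha]
      rw [if_neg ha, e1]
      simp
  have hCnn : ∀ z, 0 ≤ C z := fun z =>
    Finset.sum_nonneg fun a _ => Finset.sum_nonneg fun b _ => ad_nonneg G a b
  rcases le_or_gt D β with hDβ | hDβ
  · -- the case of large `β`
    left
    have hCle : ∀ z, C z ≤ 2 * (β : ℝ) ^ 2 := by
      intro z
      by_cases hYe : (Y z).Nonempty
      · obtain ⟨y, hy⟩ := hYe
        have h1 : ((X z).card : ℝ) ≤ β + D :=
          card_side_le G hβ z D (X z) A ((hXA z).trans hA'A) (hXm z) (hYm z y hy)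
            (hB y (hYB z hy))
        have h2 := hC1 z
        nlinarith
      · rw [Finset.not_nonempty_iff_eq_empty] at hYe
        have : C z = 0 := by rw [hC]; dsimp only; rw [hYe]; simp
        rw [this]; positivity
    have h1 : ∑ a ∈ A', ∑ b ∈ B', ad G a b ≤ ∑ z ∈ L, C z := by
      rw [Finset.sum_congr rfl fun z _ => hCeq z, Finset.sum_comm (s := L)]
      refine Finset.sum_le_sum fun a ha => ?_
      rw [Finset.sum_comm (s := L)]
      refine Finset.sum_le_sum fun b hb => ?_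
      by_cases hab : G.Adj a b
      · obtain ⟨z, hz, hza, hzb⟩ := hcov a (hA'A ha) b (hB'B hb) hab
        have h3 : ad G z a * (ad G z b * ad G a b) ≤
            ∑ z ∈ L, ad G z a * (ad G z b * ad G a b) :=
          Finset.single_le_sum (f := fun z => ad G z a * (ad G z b * ad G a b))
            (fun z _ => mul_nonneg (ad_nonneg G z a)
              (mul_nonneg (ad_nonneg G z b) (ad_nonneg G a b))) hz
        have e1 : ad G z a = 1 := by unfold ad; rw [if_pos hza]
        have e2 : ad G z b = 1 := by unfold ad; rw [if_pos hzb]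
        rw [e1, e2, one_mul, one_mul] at h3
        exact h3
      · have e1 : ad G a b = 0 := by unfold ad; rw [if_neg hab]
        rw [e1]
        simp
    have h2 : ∑ z ∈ L, C z ≤ (L.card : ℝ) * (2 * (β : ℝ) ^ 2) := by
      rw [← nsmul_eq_mul]
      exact Finset.sum_le_card_nsmul _ _ _ fun z _ => hCle z
    have h3 : (L.card : ℝ) * (2 * (β : ℝ) ^ 2) ≤ 16 * ε * n * (2 * (β : ℝ) ^ 2) :=
      mul_le_mul_of_nonneg_right hLc (by positivity)
    have h4 : n * n ≤ n * (1024 * ε * (β : ℝ) ^ 2) := by nlinarith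
    exact le_of_mul_le_mul_left h4 hn
  · -- the case of small `β`
    set m := n / (256 * ε * β) with hm
    have hmpos : 0 < m := by positivity
    have hmeq : m * (256 * ε * β) = n := by rw [hm]; field_simp
    by_cases hm4 : m < 4 * β
    · left
      have : m * (256 * ε * β) < 4 * β * (256 * ε * β) :=
        mul_lt_mul_of_pos_right hm4 (by positivity)
      nlinarith
    push Not at hm4
    right
    set Lb := L.filter (fun z => m ≤ ((X z).card : ℝ) ∧ m ≤ ((Y z).card : ℝ)) with hLb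
    set P : Finset (V × V) := (A' ×ˢ B').filter
      (fun q => G.Adj q.1 q.2 ∧ ∃ z ∈ Lb, G.Adj z q.1 ∧ G.Adj z q.2) with hP
    have hsmallz : ∀ z ∈ L \ Lb, C z ≤ m * β := by
      intro z hz
      rw [hLb, Finset.mem_sdiff, Finset.mem_filter] at hz
      obtain ⟨hz1, hz2⟩ := hz
      by_cases h1 : m ≤ ((X z).card : ℝ)
      · have h2 : ((Y z).card : ℝ) < m := by
          by_contra hcon
          push Not at hcon
          exact hz2 ⟨hz1, h1, hcon⟩
        exact (hC2 z).trans (mul_le_mul_of_nonneg_right h2.le hβp.le)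
      · push Not at h1
        exact (hC1 z).trans (mul_le_mul_of_nonneg_right h1.le hβp.le)
    have h1 : ∑ a ∈ A', ∑ b ∈ B', ad G a b ≤ (P.card : ℝ) + ∑ z ∈ L \ Lb, C z := by
      have e0 : (P.card : ℝ) = ∑ a ∈ A', ∑ b ∈ B', if (a, b) ∈ P then (1 : ℝ) else 0 := by
        rw [← Finset.sum_product']
        rw [Finset.sum_boole]
        congr 1
        congr 1
        ext q
        constructor
        · intro hq
          exact Finset.mem_filter.2 ⟨(Finset.mem_filter.1 hq).1, hq⟩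
        · intro hq
          exact (Finset.mem_filter.1 hq).2
      rw [e0, Finset.sum_congr rfl fun z _ => hCeq z, Finset.sum_comm (s := L \ Lb),
        ← Finset.sum_add_distrib]
      refine Finset.sum_le_sum fun a ha => ?_
      rw [Finset.sum_comm (s := L \ Lb), ← Finset.sum_add_distrib]
      refine Finset.sum_le_sum fun b hb => ?_
      have hnn : 0 ≤ ∑ z ∈ L \ Lb, ad G z a * (ad G z b * ad G a b) :=
        Finset.sum_nonneg fun z _ => mul_nonneg (ad_nonneg G z a)
          (mul_nonneg (ad_nonneg G z b) (ad_nonneg G a b))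
      by_cases hab : G.Adj a b
      · obtain ⟨z, hz, hza, hzb⟩ := hcov a (hA'A ha) b (hB'B hb) hab
        have e3 : ad G a b = 1 := by unfold ad; rw [if_pos hab]
        by_cases hzL : z ∈ Lb
        · have hPm : (a, b) ∈ P := by
            rw [hP, Finset.mem_filter]
            exact ⟨Finset.mk_mem_product ha hb, hab, z, hzL, hza, hzb⟩
          rw [if_pos hPm, e3]
          rw [e3] at hnn
          linarith
        · have h3 : ad G z a * (ad G z b * ad G a b) ≤
              ∑ z ∈ L \ Lb, ad G z a * (ad G z b * ad G a b) :=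
            Finset.single_le_sum (f := fun z => ad G z a * (ad G z b * ad G a b))
              (fun z _ => mul_nonneg (ad_nonneg G z a)
                (mul_nonneg (ad_nonneg G z b) (ad_nonneg G a b)))
              (Finset.mem_sdiff.2 ⟨hz, hzL⟩)
          have e1 : ad G z a = 1 := by unfold ad; rw [if_pos hza]
          have e2 : ad G z b = 1 := by unfold ad; rw [if_pos hzb]
          rw [e1, e2, one_mul, one_mul] at h3
          have h4 : (0 : ℝ) ≤ if (a, b) ∈ P then (1 : ℝ) else 0 := by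
            split_ifs <;> norm_num
          linarith
      · have e1 : ad G a b = 0 := by unfold ad; rw [if_neg hab]
        rw [e1]
        have h4 : (0 : ℝ) ≤ if (a, b) ∈ P then (1 : ℝ) else 0 := by
          split_ifs <;> norm_num
        simp only [mul_zero, Finset.sum_const_zero, add_zero]
        exact h4
    have h2 : ∑ z ∈ L \ Lb, C z ≤ n ^ 2 / 16 := by
      have h3 : ∑ z ∈ L \ Lb, C z ≤ ((L \ Lb).card : ℝ) * (m * β) := by
        rw [← nsmul_eq_mul]
        exact Finset.sum_le_card_nsmul _ _ _ hsmallz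
      have h4 : ((L \ Lb).card : ℝ) ≤ L.card := by
        exact_mod_cast Finset.card_le_card Finset.sdiff_subset
      have h5 : ((L \ Lb).card : ℝ) * (m * β) ≤ 16 * ε * n * (m * β) :=
        mul_le_mul_of_nonneg_right (h4.trans hLc) (by positivity)
      have h6 : 16 * ε * n * (m * β) = n ^ 2 / 16 := by
        have : 16 * ε * n * (m * β) = n / 16 * (m * (256 * ε * β)) := by ring
        rw [this, hmeq]
        ring
      linarith
    have hPc : n ^ 2 / 8 ≤ (P.card : ℝ) := by nlinarith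
    -- the paths
    have hle := paths_le G A' B' D hDpos.le
      (fun a ha => le_trans (Finset.sum_le_sum_of_subset_of_nonneg hB'B
        fun b _ _ => na_nonneg G a b) (hA a ha))
      (fun b hb => le_trans (Finset.sum_le_sum_of_subset_of_nonneg hA'A
        fun a _ _ => na_nonneg G b a) (hB b hb))
    have hge : (P.card : ℝ) * (3 / 8 * m ^ 2) ≤
        ∑ a ∈ A', ∑ b ∈ B', ∑ x ∈ A', ∑ y ∈ B', na G a y * (na G x y * na G x b) := by
      rw [← Finset.sum_product' (f := fun a b =>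
        ∑ x ∈ A', ∑ y ∈ B', na G a y * (na G x y * na G x b)), ← nsmul_eq_mul]
      refine (Finset.card_nsmul_le_sum P
        (fun q => ∑ x ∈ A', ∑ y ∈ B', na G q.1 y * (na G x y * na G x q.2)) _ ?_).trans
        (Finset.sum_le_sum_of_subset_of_nonneg (Finset.filter_subset _ _) ?_)
      · intro q hq
        obtain ⟨-, -, z, hz, hza, hzb⟩ := Finset.mem_filter.1 hq
        obtain ⟨-, hz1, hz2⟩ := Finset.mem_filter.1 hz
        exact paths_ge G hβ z m A' B' (X z) (Y z) (hXA z) (hYB z) (hXm z) (hYm z) hmpos.le hm4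
          hz1 hz2 hza hzb
      · intro q _ _
        exact Finset.sum_nonneg fun x _ => Finset.sum_nonneg fun y _ =>
          mul_nonneg (na_nonneg G _ _) (mul_nonneg (na_nonneg G _ _) (na_nonneg G _ _))
    have hA'n : (A'.card : ℝ) ≤ n := by
      have : (A'.card : ℝ) ≤ A.card := by exact_mod_cast Finset.card_le_card hA'A
      linarith
    have h7 : n ^ 2 / 8 * (3 / 8 * m ^ 2) ≤ n * D ^ 3 := by
      have a1 : n ^ 2 / 8 * (3 / 8 * m ^ 2) ≤ (P.card : ℝ) * (3 / 8 * m ^ 2) :=
        mul_le_mul_of_nonneg_right hPc (by positivity)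
      have a2 : (A'.card : ℝ) * D ^ 3 ≤ n * D ^ 3 :=
        mul_le_mul_of_nonneg_right hA'n (by positivity)
      linarith
    -- the computation
    have h8 : n ^ 2 / 8 * (3 / 8 * m ^ 2) * (256 * ε * β) ^ 2 ≤ n * D ^ 3 * (256 * ε * β) ^ 2 :=
      mul_le_mul_of_nonneg_right h7 (by positivity)
    have h9 : n ^ 2 / 8 * (3 / 8 * m ^ 2) * (256 * ε * β) ^ 2 = 3 / 64 * n ^ 4 := by
      have : n ^ 2 / 8 * (3 / 8 * m ^ 2) * (256 * ε * β) ^ 2 =
          3 / 64 * n ^ 2 * (m * (256 * ε * β)) ^ 2 := by ring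
      rw [this, hmeq]
      ring
    have h10 : n * D ^ 3 * (256 * ε * β) ^ 2 = n ^ 4 * (2 ^ 31 * ε ^ 5 * (β : ℝ) ^ 2) := by
      rw [hD]; ring
    rw [h9, h10] at h8
    have h11 : n ^ 4 * (3 / 64) ≤ n ^ 4 * (2 ^ 31 * ε ^ 5 * (β : ℝ) ^ 2) := by linarith
    have h12 := le_of_mul_le_mul_left h11 (by positivity)
    linarith

/-- The three cases. -/
theorem trichotomy {β : ℕ} (hβ : ∀ u v, G.Adj u v → cd G u v ≤ β) (ε : ℝ) (hε0 : 0 < ε)
    (hε : ε ≤ 1 / 10 ^ 4) (hn : 0 < (Fintype.card V : ℝ)) (hβ1 : 1 ≤ β)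
    (he : (Fintype.card V : ℝ) ^ 2 / 4 - ε * (Fintype.card V : ℝ) ^ 2 ≤
      (G.edgeFinset.card : ℝ)) (htri : ∀ u v, G.Adj u v → ∃ w, G.Adj u w ∧ G.Adj v w) :
    (Fintype.card V : ℝ) / 10 ^ 4 ≤ β ∨ (Fintype.card V : ℝ) ≤ 1024 * ε * (β : ℝ) ^ 2 ∨
      3 ≤ 2 ^ 37 * ε ^ 5 * (β : ℝ) ^ 2 := by
  by_cases hβn : (β : ℝ) ≤ (Fintype.card V : ℝ) / 10 ^ 4
  swap
  · left
    push Not at hβn
    exact hβn.le
  right
  obtain ⟨A, B, L, hAB, hL, hindA, hindB, hLc, hM, hE⟩ := exists_second G hβ ε hε hn hβn he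
  have hcard := card_eq A B L hAB hL
  have hLn : (0 : ℝ) ≤ L.card := Nat.cast_nonneg _
  have hBn : (0 : ℝ) ≤ B.card := Nat.cast_nonneg _
  obtain ⟨A', B', hA'A, hB'B, hA', hB', hE'⟩ :=
    exists_typical G A B _ ε hn hε0 (by linarith) hM hE
  refine cover G hβ hβ1 ε _ hn hε0 A B L A' B' hA'A hB'B (by linarith) hLc ?_ hA' hB' hE'
  intro a ha b hb hab
  obtain ⟨w, hw1, hw2⟩ := htri a b hab
  refine ⟨w, ?_, hw1.symm, hw2.symm⟩
  rw [hL, Finset.mem_sdiff, Finset.mem_union]
  refine ⟨Finset.mem_univ _, ?_⟩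
  rintro (hw | hw)
  · exact hindA a ha w hw hw1
  · exact hindB b hb w hw hw2

end

end Pool.Agent.Lib.MP_cd78fc_co
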