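import Pool.Agent.Lib.MP_cd78fc_co.Structure

set_option autoImplicit false
set_option linter.unusedSectionVars false

/-!
# MP_cd78fc_co: books in graphs with almost `n ^ 2 / 4` edges, the partition
-/

universe u

namespace Pool.Agent.Lib.MP_cd78fc_co

open Finset

section

variable {V : Type u} [Fintype V] [DecidableEq V] (G : SimpleGraph V) [DecidableRel G.Adj]

theorem sum_ad_le_of_adj {β : ℕ} (hβ : ∀ u v, G.Adj u v → cd G u v ≤ β) (z : V) (S : Finset V)
    (hS : ∀ s ∈ S, G.Adj z s) {x : V} (hx : G.Adj z x) : ∑ s ∈ S, ad G x s ≤ β := by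
  have h4 := sum_ad_mul_le G hβ S hx.symm
  refine le_trans (le_of_eq ?_) h4
  refine Finset.sum_congr rfl fun y hy => ?_
  have : ad G z y = 1 := by unfold ad; rw [if_pos (hS y hy)]
  rw [this, mul_one]

theorem sum_sum_ad_add (A B : Finset V) :
    ∑ a ∈ A, ∑ b ∈ B, ad G a b + ∑ a ∈ A, ∑ b ∈ B, na G a b = (A.card : ℝ) * B.card := by
  rw [← Finset.sum_add_distrib, Finset.sum_congr rfl fun a _ => sum_ad_add G B a,
    Finset.sum_const, nsmul_eq_mul]

theorem rectangle_filter {β : ℕ} (hβ : ∀ u v, G.Adj u v → cd G u v ≤ β) (A B : Finset V) (w : V) :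
    (∑ a ∈ A, ad G w a) * ((∑ b ∈ B, ad G w b) - β) ≤ ∑ a ∈ A, ∑ b ∈ B, na G a b := by
  rw [sum_ad, sum_ad]
  refine (rectangle G hβ w _ _ (fun x hx => (Finset.mem_filter.1 hx).2)
    (fun x hx => (Finset.mem_filter.1 hx).2)).trans ?_
  exact sum_na_mono G (Finset.filter_subset _ _) (Finset.filter_subset _ _)

/-- Two adjacent vertices have many common neighbours in `B` when both have large degree into `B`. -/
theorem not_adj_of_large {β : ℕ} (hβ : ∀ u v, G.Adj u v → cd G u v ≤ β) (B : Finset V) (s : ℝ)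
    (hs : (β : ℝ) < 2 * s - B.card) {a a' : V} (ha : s ≤ ∑ b ∈ B, ad G a b)
    (ha' : s ≤ ∑ b ∈ B, ad G a' b) : ¬ G.Adj a a' := by
  intro hadj
  have h1 := sum_ad_mul_le G hβ B hadj
  have h2 : ∑ b ∈ B, (ad G a b + ad G a' b - 1) ≤ ∑ b ∈ B, ad G a b * ad G a' b := by
    refine Finset.sum_le_sum fun b _ => ?_
    unfold ad
    split_ifs <;> norm_num
  rw [Finset.sum_sub_distrib, Finset.sum_add_distrib, Finset.sum_const, nsmul_eq_mul, mul_one] at h2
  linarith

theorem degree_eq (A B L : Finset V) (hAB : Disjoint A B) (hL : L = univ \ (A ∪ B)) (w : V) :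
    (G.degree w : ℝ) = ∑ a ∈ A, ad G w a + ∑ b ∈ B, ad G w b + ∑ l ∈ L, ad G w l := by
  have hdisj : Disjoint (A ∪ B) L := by rw [hL]; exact Finset.disjoint_sdiff
  have huniv : (univ : Finset V) = (A ∪ B) ∪ L := by
    rw [hL, Finset.union_sdiff_of_subset (Finset.subset_univ _)]
  rw [← sum_ad_univ, huniv, Finset.sum_union hdisj, Finset.sum_union hAB]

theorem card_eq (A B L : Finset V) (hAB : Disjoint A B) (hL : L = univ \ (A ∪ B)) :
    (Fintype.card V : ℝ) = (A.card : ℝ) + B.card + L.card := by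
  have h1 : (A ∪ B).card + L.card = Fintype.card V := by
    rw [hL, ← Finset.card_univ, add_comm, Finset.card_sdiff_add_card_eq_card (Finset.subset_univ _)]
  rw [Finset.card_union_of_disjoint hAB] at h1
  rw [← h1]
  push_cast
  ring

/-- The first partition. -/
theorem exists_first {β : ℕ} (hβ : ∀ u v, G.Adj u v → cd G u v ≤ β) (ε : ℝ)
    (hε : ε ≤ 1 / 10 ^ 4) (hn : 0 < (Fintype.card V : ℝ))
    (hβn : (β : ℝ) ≤ (Fintype.card V : ℝ) / 10 ^ 4)
    (he : (Fintype.card V : ℝ) ^ 2 / 4 - ε * (Fintype.card V : ℝ) ^ 2 ≤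
      (G.edgeFinset.card : ℝ)) : ∃ A B L : Finset V, Disjoint A B ∧ L = univ \ (A ∪ B) ∧
      (L.card : ℝ) ≤ 5 / 10 ^ 4 * (Fintype.card V : ℝ) ∧
      ∑ a ∈ A, ∑ b ∈ B, na G a b ≤ 13 / (2 * 10 ^ 4) * (Fintype.card V : ℝ) ^ 2 ∧
      47 / 100 * (Fintype.card V : ℝ) ≤ A.card ∧ (A.card : ℝ) ≤ 53 / 100 * (Fintype.card V : ℝ) ∧
      47 / 100 * (Fintype.card V : ℝ) ≤ B.card ∧ (B.card : ℝ) ≤ 53 / 100 * (Fintype.card V : ℝ) := by
  set n : ℝ := (Fintype.card V : ℝ) with hndef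
  have hn2 : 0 < n ^ 2 := by positivity
  have hεn : ε * n ^ 2 ≤ 1 / 10 ^ 4 * n ^ 2 := mul_le_mul_of_nonneg_right hε hn2.le
  have hεn1 : ε * n ≤ 1 / 10 ^ 4 * n := mul_le_mul_of_nonneg_right hε hn.le
  have hepos : 0 < (G.edgeFinset.card : ℝ) := by nlinarith
  obtain ⟨u, v, huv, hdeg⟩ := exists_edge G (by exact_mod_cast hepos)
  rw [← hndef] at hdeg
  have hdeg2 : n - 4 * ε * n ≤ (G.degree u : ℝ) + G.degree v := by
    by_contra hcon
    push Not at hcon
    have := mul_lt_mul_of_pos_left hcon hn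
    nlinarith
  set A0 := G.neighborFinset v with hA0
  set B0 := G.neighborFinset u \ G.neighborFinset v with hB0
  set L0 := univ \ (A0 ∪ B0) with hL0
  have hAB : Disjoint A0 B0 := Finset.disjoint_sdiff
  have hcard := card_eq A0 B0 L0 hAB hL0
  rw [← hndef] at hcard
  have hA0c : (A0.card : ℝ) = G.degree v := by rw [hA0, G.card_neighborFinset_eq_degree]
  have hB0c : (G.degree u : ℝ) - β ≤ B0.card := by
    have h1 : B0.card + (G.neighborFinset u ∩ G.neighborFinset v).card = G.degree u := by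
      rw [hB0, Finset.card_sdiff_add_card_inter, G.card_neighborFinset_eq_degree]
    have h2 : (G.neighborFinset u ∩ G.neighborFinset v).card ≤ β := by
      refine le_trans (le_of_eq ?_) (hβ u v huv)
      unfold cd
      congr 1
      ext w
      simp
    have h3 : (B0.card : ℝ) + ((G.neighborFinset u ∩ G.neighborFinset v).card : ℝ) =
        G.degree u := by exact_mod_cast h1
    have h4 : ((G.neighborFinset u ∩ G.neighborFinset v).card : ℝ) ≤ β := by exact_mod_cast h2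
    linarith
  have hL0c : (L0.card : ℝ) ≤ 5 / 10 ^ 4 * n := by
    nlinarith
  have hinA : ∀ a ∈ A0, ∑ a' ∈ A0, ad G a a' ≤ β := fun a ha =>
    sum_ad_le_of_adj G hβ v A0 (fun s hs => by simpa [hA0] using hs) (by simpa [hA0] using ha)
  have hinB : ∀ b ∈ B0, ∑ b' ∈ B0, ad G b b' ≤ β := fun b hb =>
    sum_ad_le_of_adj G hβ u B0 (fun s hs => by
      simpa using (Finset.mem_sdiff.1 hs).1) (by simpa using (Finset.mem_sdiff.1 hb).1)
  have hdec := sum_degree_le G A0 B0 L0 hAB hL0 β β hinA hinB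
  have hLdeg : ∑ l ∈ L0, (G.degree l : ℝ) ≤ (L0.card : ℝ) * n := by
    rw [← nsmul_eq_mul]
    refine Finset.sum_le_card_nsmul _ _ _ fun l _ => ?_
    rw [hndef]
    exact_mod_cast (G.degree_lt_card_verts l).le
  have hsum := sum_sum_ad_add G A0 B0
  set E0 := ∑ a ∈ A0, ∑ b ∈ B0, ad G a b with hE0
  set M0 := ∑ a ∈ A0, ∑ b ∈ B0, na G a b with hM0
  have hM0n : 0 ≤ M0 := Finset.sum_nonneg fun a _ => Finset.sum_nonneg fun b _ => na_nonneg G a b
  have hAn : (0 : ℝ) ≤ A0.card := Nat.cast_nonneg _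
  have hBn : (0 : ℝ) ≤ B0.card := Nat.cast_nonneg _
  have hLn : (0 : ℝ) ≤ L0.card := Nat.cast_nonneg _
  have hβ0 : (0 : ℝ) ≤ β := Nat.cast_nonneg _
  have hE : n ^ 2 / 4 - 13 / (2 * 10 ^ 4) * n ^ 2 ≤ E0 := by
    have h1 : ((A0.card : ℝ) + B0.card) * β ≤ n * (n / 10 ^ 4) :=
      mul_le_mul (by linarith) hβn hβ0 hn.le
    have h2 : (L0.card : ℝ) * n ≤ 5 / 10 ^ 4 * n * n := mul_le_mul_of_nonneg_right hL0c hn.le
    nlinarith
  have hM : M0 ≤ 13 / (2 * 10 ^ 4) * n ^ 2 := by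
    have h1 : (A0.card : ℝ) * B0.card ≤ n ^ 2 / 4 := by
      nlinarith [sq_nonneg ((A0.card : ℝ) - B0.card)]
    linarith
  have hprod : n ^ 2 / 4 - 13 / (2 * 10 ^ 4) * n ^ 2 ≤ (A0.card : ℝ) * B0.card := by linarith
  have hlow : ∀ x y : ℝ, 0 ≤ x → 0 ≤ y → x + y ≤ n →
      n ^ 2 / 4 - 13 / (2 * 10 ^ 4) * n ^ 2 ≤ x * y → 47 / 100 * n ≤ x := by
    intro x y hx hy hxy hpr
    by_contra hcon
    push Not at hcon
    have h1 : x * y ≤ x * (n - x) := mul_le_mul_of_nonneg_left (by linarith) hx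
    have h2 : 0 < (47 / 100 * n - x) * (53 / 100 * n - x) :=
      mul_pos (by linarith) (by linarith)
    nlinarith
  have hA1 := hlow A0.card B0.card hAn hBn (by linarith) hprod
  have hB1 := hlow B0.card A0.card hBn hAn (by linarith) (hprod.trans (le_of_eq (mul_comm _ _)))
  exact ⟨A0, B0, L0, hAB, hL0, hL0c, hM, hA1, by linarith, hB1, by linarith⟩

end

end Pool.Agent.Lib.MP_cd78fc_co
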