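import Pool.Agent.Lib.MP_cd78fc_co.Partition

set_option autoImplicit false
set_option linter.unusedSectionVars false

/-!
# MP_cd78fc_co: books in graphs with almost `n ^ 2 / 4` edges, the second partition
-/

universe u

namespace Pool.Agent.Lib.MP_cd78fc_co

open Finset

section

variable {V : Type u} [Fintype V] [DecidableEq V] (G : SimpleGraph V) [DecidableRel G.Adj]

theorem card_mul_le_sum_na (S T : Finset V) (B : Finset V) (hST : S ⊆ T) (s : ℝ)
    (hs : ∀ a ∈ S, ∑ b ∈ B, ad G a b ≤ B.card - s) :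
    (S.card : ℝ) * s ≤ ∑ a ∈ T, ∑ b ∈ B, na G a b := by
  calc (S.card : ℝ) * s = ∑ _a ∈ S, s := by rw [Finset.sum_const, nsmul_eq_mul]
    _ ≤ ∑ a ∈ S, ∑ b ∈ B, na G a b := by
        refine Finset.sum_le_sum fun a ha => ?_
        have h1 := sum_ad_add G B a
        have h2 := hs a ha
        linarith
    _ ≤ _ := sum_na_mono G hST (Finset.Subset.refl _)

theorem sum_sum_na_comm (A B : Finset V) :
    ∑ a ∈ A, ∑ b ∈ B, na G a b = ∑ b ∈ B, ∑ a ∈ A, na G b a := by
  rw [Finset.sum_comm]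
  exact Finset.sum_congr rfl fun a _ => Finset.sum_congr rfl fun b _ => na_comm G b a

theorem sum_sum_ad_comm (A B : Finset V) :
    ∑ a ∈ A, ∑ b ∈ B, ad G a b = ∑ b ∈ B, ∑ a ∈ A, ad G b a := by
  rw [Finset.sum_comm]
  exact Finset.sum_congr rfl fun a _ => Finset.sum_congr rfl fun b _ => ad_comm G b a

/-- The partition of the vertices: two independent sets and few further vertices. -/
theorem exists_second {β : ℕ} (hβ : ∀ u v, G.Adj u v → cd G u v ≤ β) (ε : ℝ)
    (hε : ε ≤ 1 / 10 ^ 4) (hn : 0 < (Fintype.card V : ℝ))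
    (hβn : (β : ℝ) ≤ (Fintype.card V : ℝ) / 10 ^ 4)
    (he : (Fintype.card V : ℝ) ^ 2 / 4 - ε * (Fintype.card V : ℝ) ^ 2 ≤
      (G.edgeFinset.card : ℝ)) : ∃ A B L : Finset V, Disjoint A B ∧ L = univ \ (A ∪ B) ∧
      (∀ a ∈ A, ∀ a' ∈ A, ¬ G.Adj a a') ∧ (∀ b ∈ B, ∀ b' ∈ B, ¬ G.Adj b b') ∧
      (L.card : ℝ) ≤ 16 * ε * (Fintype.card V : ℝ) ∧
      ∑ a ∈ A, ∑ b ∈ B, na G a b ≤ ε * (Fintype.card V : ℝ) ^ 2 ∧
      6 / 25 * (Fintype.card V : ℝ) ^ 2 ≤ ∑ a ∈ A, ∑ b ∈ B, ad G a b := by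
  classical
  obtain ⟨A0, B0, L0, hAB0, hL0, hL0c, hM0, hA1, hA2, hB1, hB2⟩ :=
    exists_first G hβ ε hε hn hβn he
  set n : ℝ := (Fintype.card V : ℝ) with hndef
  have hn2 : 0 < n ^ 2 := by positivity
  have hβ0 : (0 : ℝ) ≤ β := Nat.cast_nonneg _
  have hrect := rectangle_filter G hβ A0 B0
  set M0 := ∑ a ∈ A0, ∑ b ∈ B0, na G a b with hM0def
  set A := univ.filter (fun w => 2 / 5 * n ≤ ∑ b ∈ B0, ad G w b) with hA
  set B := univ.filter (fun w => 2 / 5 * n ≤ ∑ a ∈ A0, ad G w a) with hB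
  have hAm : ∀ w, w ∈ A ↔ 2 / 5 * n ≤ ∑ b ∈ B0, ad G w b := by
    intro w; rw [hA, Finset.mem_filter]; simp
  have hBm : ∀ w, w ∈ B ↔ 2 / 5 * n ≤ ∑ a ∈ A0, ad G w a := by
    intro w; rw [hB, Finset.mem_filter]; simp
  -- disjoint
  have hAB : Disjoint A B := by
    rw [Finset.disjoint_left]
    intro w hwA hwB
    rw [hAm] at hwA
    rw [hBm] at hwB
    have h1 := hrect w
    have h2 : 2 / 5 * n * (2 / 5 * n - n / 10 ^ 4) ≤
        (∑ a ∈ A0, ad G w a) * ((∑ b ∈ B0, ad G w b) - β) :=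
      mul_le_mul hwB (by linarith) (by nlinarith) (by linarith)
    nlinarith
  have hindA : ∀ a ∈ A, ∀ a' ∈ A, ¬ G.Adj a a' := by
    intro a ha a' ha'
    rw [hAm] at ha ha'
    exact not_adj_of_large G hβ B0 (2 / 5 * n) (by linarith) ha ha'
  have hindB : ∀ a ∈ B, ∀ a' ∈ B, ¬ G.Adj a a' := by
    intro a ha a' ha'
    rw [hBm] at ha ha'
    exact not_adj_of_large G hβ A0 (2 / 5 * n) (by linarith) ha ha'
  set L := univ \ (A ∪ B) with hL
  -- the degrees of the remaining vertices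
  have hdegL : ∀ w ∈ L, (G.degree w : ℝ) ≤ 4305 / 10000 * n := by
    intro w hw
    rw [hL, Finset.mem_sdiff, Finset.mem_union, hAm, hBm] at hw
    push Not at hw
    obtain ⟨-, hy, hx⟩ := hw
    have h1 := hrect w
    have h2 := degree_eq G A0 B0 L0 hAB0 hL0 w
    have h3 := sum_ad_le_card G L0 w
    have h4 : ∑ a ∈ A0, ad G w a + ∑ b ∈ B0, ad G w b ≤ 43 / 100 * n := by
      by_contra hcon
      push Not at hcon
      have h5 : 3 / 100 * n * (3 / 100 * n - n / 10 ^ 4) ≤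
          (∑ a ∈ A0, ad G w a) * ((∑ b ∈ B0, ad G w b) - β) :=
        mul_le_mul (by linarith) (by linarith) (by nlinarith) (by linarith)
      nlinarith
    linarith
  -- a first bound for the number of the remaining vertices
  have hcA : (((A0 \ A).card : ℕ) : ℝ) * (7 / 100 * n) ≤ M0 := by
    refine card_mul_le_sum_na G (A0 \ A) A0 B0 Finset.sdiff_subset (7 / 100 * n) ?_
    intro a ha
    have h1 := (Finset.mem_sdiff.1 ha).2
    rw [hAm] at h1
    push Not at h1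
    linarith
  have hcB : (((B0 \ B).card : ℕ) : ℝ) * (7 / 100 * n) ≤ M0 := by
    rw [hM0def, sum_sum_na_comm]
    refine card_mul_le_sum_na G (B0 \ B) B0 A0 Finset.sdiff_subset (7 / 100 * n) ?_
    intro a ha
    have h1 := (Finset.mem_sdiff.1 ha).2
    rw [hBm] at h1
    push Not at h1
    linarith
  have hsmall : ∀ x : ℝ, x * (7 / 100 * n) ≤ M0 → x ≤ 95 / 10000 * n := by
    intro x hx
    by_contra hcon
    push Not at hcon
    have : 95 / 10000 * n * (7 / 100 * n) < x * (7 / 100 * n) :=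
      mul_lt_mul_of_pos_right hcon (by linarith)
    nlinarith
  have hLsub : L ⊆ L0 ∪ ((A0 \ A) ∪ (B0 \ B)) := by
    intro w hw
    rw [hL, Finset.mem_sdiff, Finset.mem_union] at hw
    push Not at hw
    simp only [Finset.mem_union, Finset.mem_sdiff, hL0, Finset.mem_univ, true_and]
    tauto
  have hLc1 : (L.card : ℝ) ≤ 2 / 100 * n := by
    have h1 : L.card ≤ L0.card + ((A0 \ A).card + (B0 \ B).card) :=
      (Finset.card_le_card hLsub).trans ((Finset.card_union_le _ _).trans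
        (Nat.add_le_add_left (Finset.card_union_le _ _) _))
    have h2 : (L.card : ℝ) ≤ L0.card + (((A0 \ A).card : ℝ) + ((B0 \ B).card : ℝ)) := by
      exact_mod_cast h1
    have h3 := hsmall _ hcA
    have h4 := hsmall _ hcB
    linarith
  -- the edge count
  have hdec := sum_degree_le G A B L hAB hL 0 0
    (fun a ha => le_of_eq (Finset.sum_eq_zero fun a' ha' => by
      unfold ad; rw [if_neg (hindA a ha a' ha')]))
    (fun a ha => le_of_eq (Finset.sum_eq_zero fun a' ha' => by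
      unfold ad; rw [if_neg (hindB a ha a' ha')]))
  have hLdeg : ∑ l ∈ L, (G.degree l : ℝ) ≤ (L.card : ℝ) * (4305 / 10000 * n) := by
    rw [← nsmul_eq_mul]
    exact Finset.sum_le_card_nsmul _ _ _ hdegL
  have hcard := card_eq A B L hAB hL
  rw [← hndef] at hcard
  have hsum := sum_sum_ad_add G A B
  set E := ∑ a ∈ A, ∑ b ∈ B, ad G a b with hE
  set M := ∑ a ∈ A, ∑ b ∈ B, na G a b with hM
  have hMn : 0 ≤ M := Finset.sum_nonneg fun a _ => Finset.sum_nonneg fun b _ => na_nonneg G a b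
  have hLn : (0 : ℝ) ≤ L.card := Nat.cast_nonneg _
  have hprod : (A.card : ℝ) * B.card ≤ (n - L.card) ^ 2 / 4 := by
    have : n - (L.card : ℝ) = A.card + B.card := by linarith
    rw [this]
    nlinarith [sq_nonneg ((A.card : ℝ) - B.card)]
  have hLL : (L.card : ℝ) ^ 2 ≤ 2 / 100 * n * L.card := by
    rw [sq]; exact mul_le_mul_of_nonneg_right hLc1 hLn
  have hkey : M + 645 / 10000 * (n * L.card) ≤ ε * n ^ 2 := by nlinarith
  have hLc : (L.card : ℝ) ≤ 16 * ε * n := by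
    have h1 : 645 / 10000 * (L.card : ℝ) ≤ ε * n := by
      by_contra hcon
      push Not at hcon
      have := mul_lt_mul_of_pos_left hcon hn
      nlinarith
    nlinarith
  have hMM : M ≤ ε * n ^ 2 := by nlinarith [mul_nonneg hn.le hLn]
  refine ⟨A, B, L, hAB, hL, hindA, hindB, hLc, hMM, ?_⟩
  have hεn : ε * n ^ 2 ≤ 1 / 10 ^ 4 * n ^ 2 := mul_le_mul_of_nonneg_right hε hn2.le
  have h1 : (L.card : ℝ) * n ≤ 16 * ε * n * n := mul_le_mul_of_nonneg_right hLc hn.le
  nlinarith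

end

end Pool.Agent.Lib.MP_cd78fc_co
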