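import Pool.Agent.Lib.MP_cd78fc_co.Basic

set_option autoImplicit false
set_option linter.unusedSectionVars false

/-!
# MP_cd78fc_co: books in graphs with almost `n ^ 2 / 4` edges, the structure
-/

universe u

namespace Pool.Agent.Lib.MP_cd78fc_co

open Finset

section

variable {V : Type u} [Fintype V] [DecidableEq V] (G : SimpleGraph V) [DecidableRel G.Adj]

/-- The number of triangles that contain the edge `uv`. -/
def cd (u v : V) : ℕ := (univ.filter fun w => G.Adj u w ∧ G.Adj v w).card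

theorem sum_ad_mul (S : Finset V) (u v : V) :
    ∑ w ∈ S, ad G u w * ad G v w = ((S.filter fun w => G.Adj u w ∧ G.Adj v w).card : ℝ) := by
  rw [← Finset.sum_boole]
  refine Finset.sum_congr rfl fun w _ => ?_
  unfold ad
  by_cases h1 : G.Adj u w <;> by_cases h2 : G.Adj v w <;> simp [h1, h2]

theorem sum_ad_mul_le {β : ℕ} (hβ : ∀ u v, G.Adj u v → cd G u v ≤ β) (S : Finset V) {u v : V}
    (huv : G.Adj u v) : ∑ w ∈ S, ad G u w * ad G v w ≤ β := by
  rw [sum_ad_mul]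
  have h1 : (S.filter fun w => G.Adj u w ∧ G.Adj v w).card ≤ cd G u v :=
    Finset.card_le_card (Finset.filter_subset_filter _ (Finset.subset_univ S))
  exact_mod_cast h1.trans (hβ u v huv)

/-- The number of missing pairs in the rectangle given by the neighbours of a vertex. -/
theorem rectangle {β : ℕ} (hβ : ∀ u v, G.Adj u v → cd G u v ≤ β) (z : V) (X Y : Finset V)
    (hX : ∀ x ∈ X, G.Adj z x) (hY : ∀ y ∈ Y, G.Adj z y) :
    (X.card : ℝ) * ((Y.card : ℝ) - β) ≤ ∑ x ∈ X, ∑ y ∈ Y, na G x y := by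
  have h1 : ∀ x ∈ X, (Y.card : ℝ) - β ≤ ∑ y ∈ Y, na G x y := by
    intro x hx
    have h2 := sum_ad_add G Y x
    have h3 : ∑ y ∈ Y, ad G x y ≤ β := by
      have h4 := sum_ad_mul_le G hβ Y (hX x hx).symm
      refine le_trans (le_of_eq ?_) h4
      refine Finset.sum_congr rfl fun y hy => ?_
      have : ad G z y = 1 := by unfold ad; rw [if_pos (hY y hy)]
      rw [this, mul_one]
    linarith
  calc (X.card : ℝ) * ((Y.card : ℝ) - β) = ∑ _x ∈ X, ((Y.card : ℝ) - β) := by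
        rw [Finset.sum_const, nsmul_eq_mul]
    _ ≤ _ := Finset.sum_le_sum h1

theorem sum_na_mono {S S' T T' : Finset V} (hS : S ⊆ S') (hT : T ⊆ T') :
    ∑ a ∈ S, ∑ b ∈ T, na G a b ≤ ∑ a ∈ S', ∑ b ∈ T', na G a b := by
  calc ∑ a ∈ S, ∑ b ∈ T, na G a b ≤ ∑ a ∈ S, ∑ b ∈ T', na G a b :=
        Finset.sum_le_sum fun a _ => Finset.sum_le_sum_of_subset_of_nonneg hT
          fun b _ _ => na_nonneg G a b
    _ ≤ _ := Finset.sum_le_sum_of_subset_of_nonneg hS
          fun a _ _ => Finset.sum_nonneg fun b _ => na_nonneg G a b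

theorem sum_ad_le_card (S : Finset V) (a : V) : ∑ b ∈ S, ad G a b ≤ (S.card : ℝ) := by
  have h1 := sum_ad_add G S a
  have h2 : 0 ≤ ∑ b ∈ S, na G a b := Finset.sum_nonneg fun b _ => na_nonneg G a b
  linarith

/-- Decomposition of the sum of the degrees for a partition of the vertices in three sets. -/
theorem sum_degree_le (A B L : Finset V) (hAB : Disjoint A B) (hL : L = univ \ (A ∪ B))
    (p q : ℝ) (hA : ∀ a ∈ A, ∑ a' ∈ A, ad G a a' ≤ p) (hB : ∀ b ∈ B, ∑ b' ∈ B, ad G b b' ≤ q) :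
    2 * (G.edgeFinset.card : ℝ) ≤ (A.card : ℝ) * p + (B.card : ℝ) * q +
      2 * ∑ a ∈ A, ∑ b ∈ B, ad G a b + 2 * ∑ l ∈ L, (G.degree l : ℝ) := by
  have hdisj : Disjoint (A ∪ B) L := by rw [hL]; exact Finset.disjoint_sdiff
  have huniv : (univ : Finset V) = (A ∪ B) ∪ L := by
    rw [hL, Finset.union_sdiff_of_subset (Finset.subset_univ _)]
  have hsplit : ∀ f : V → ℝ, ∑ w, f w = ∑ w ∈ A, f w + ∑ w ∈ B, f w + ∑ w ∈ L, f w := by
    intro f
    rw [huniv, Finset.sum_union hdisj, Finset.sum_union hAB]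
  have hdeg : ∀ w, (G.degree w : ℝ) =
      ∑ a ∈ A, ad G w a + ∑ b ∈ B, ad G w b + ∑ l ∈ L, ad G w l := by
    intro w
    rw [← sum_ad_univ, hsplit]
  rw [← sum_degree, hsplit]
  have e1 : ∑ w ∈ A, (G.degree w : ℝ) ≤ (A.card : ℝ) * p + ∑ a ∈ A, ∑ b ∈ B, ad G a b +
      ∑ a ∈ A, ∑ l ∈ L, ad G a l := by
    calc ∑ w ∈ A, (G.degree w : ℝ) ≤ ∑ w ∈ A, (p + ∑ b ∈ B, ad G w b + ∑ l ∈ L, ad G w l) := by
          refine Finset.sum_le_sum fun w hw => ?_
          rw [hdeg w]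
          have := hA w hw
          linarith
      _ = _ := by
          rw [Finset.sum_add_distrib, Finset.sum_add_distrib, Finset.sum_const, nsmul_eq_mul]
  have e2 : ∑ w ∈ B, (G.degree w : ℝ) ≤ (B.card : ℝ) * q + ∑ a ∈ A, ∑ b ∈ B, ad G a b +
      ∑ b ∈ B, ∑ l ∈ L, ad G b l := by
    calc ∑ w ∈ B, (G.degree w : ℝ) ≤ ∑ w ∈ B, (∑ a ∈ A, ad G w a + q + ∑ l ∈ L, ad G w l) := by
          refine Finset.sum_le_sum fun w hw => ?_
          rw [hdeg w]
          have := hB w hw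
          linarith
      _ = _ := by
          rw [Finset.sum_add_distrib, Finset.sum_add_distrib, Finset.sum_const, nsmul_eq_mul]
          have : ∑ b ∈ B, ∑ a ∈ A, ad G b a = ∑ a ∈ A, ∑ b ∈ B, ad G a b := by
            rw [Finset.sum_comm]
            exact Finset.sum_congr rfl fun a _ => Finset.sum_congr rfl fun b _ => ad_comm G b a
          rw [this]
          ring
  have e3 : ∑ a ∈ A, ∑ l ∈ L, ad G a l + ∑ b ∈ B, ∑ l ∈ L, ad G b l ≤
      ∑ l ∈ L, (G.degree l : ℝ) := by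
    have c1 : ∑ a ∈ A, ∑ l ∈ L, ad G a l = ∑ l ∈ L, ∑ a ∈ A, ad G l a := by
      rw [Finset.sum_comm]
      exact Finset.sum_congr rfl fun a _ => Finset.sum_congr rfl fun b _ => ad_comm G b a
    have c2 : ∑ b ∈ B, ∑ l ∈ L, ad G b l = ∑ l ∈ L, ∑ b ∈ B, ad G l b := by
      rw [Finset.sum_comm]
      exact Finset.sum_congr rfl fun a _ => Finset.sum_congr rfl fun b _ => ad_comm G b a
    rw [c1, c2, ← Finset.sum_add_distrib]
    refine Finset.sum_le_sum fun l _ => ?_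
    rw [hdeg l]
    have : 0 ≤ ∑ l' ∈ L, ad G l l' := Finset.sum_nonneg fun b _ => ad_nonneg G l b
    linarith
  linarith

end

end Pool.Agent.Lib.MP_cd78fc_co
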